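import Mathlib

namespace Pool.Agent.Results.MP_5f020a_co.SevenFifths

open Finset

/-- The template `P` (a palette for every pair of vertices of `K_n`) is `H`-SDR-free: for no copy of
`H` in `K_n` do the palettes on its edges have a system of distinct representatives. -/
def SDRFree {V : Type} (H : SimpleGraph V) {n l : ℕ} (P : Sym2 (Fin n) → Finset (Fin l)) : Prop :=
  ∀ f : V → Fin n, Function.Injective f →
    ¬ ∃ c : H.edgeSet → Fin l, Function.Injective c ∧ ∀ e : H.edgeSet, c e ∈ P (Sym2.map f e.1)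

/-- `ex_log(n; H, l)`: the maximum of the sum of `log |P e|` over the edges of `K_n`, over all
`H`-SDR-free `l`-palette templates `P` on `K_n` (palettes are nonempty sets of colours). -/
noncomputable def exLog {V : Type} (H : SimpleGraph V) (n l : ℕ) : ℝ :=
  sSup {x : ℝ | ∃ P : Sym2 (Fin n) → Finset (Fin l), (∀ e, ¬ e.IsDiag → (P e).Nonempty) ∧
    SDRFree H P ∧ x = ∑ e ∈ (⊤ : SimpleGraph (Fin n)).edgeFinset, Real.log ((P e).card : ℝ)}

/-- `lambda(H, l)`: the infimum over `n ≥ v(H)` of `ex_log(n; H, l) / binom(n,2)`. -/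
noncomputable def lam {V : Type} [Fintype V] (H : SimpleGraph V) (l : ℕ) : ℝ :=
  ⨅ n : {n : ℕ // Fintype.card V ≤ n}, exLog H n.1 l / ((n.1.choose 2 : ℕ) : ℝ)

/-- `chi_j(H)`: the least chromatic number of a graph `H - S` with `S` a set of `j` edges of `H`. -/
noncomputable def chiDel {V : Type} (H : SimpleGraph V) (j : ℕ) : ℕ :=
  sInf {c : ℕ | ∃ S : Finset (Sym2 V), (S : Set (Sym2 V)) ⊆ H.edgeSet ∧ S.card = j ∧
    (H.deleteEdges (S : Set (Sym2 V))).chromaticNumber = (c : ℕ∞)}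

/-- `pi_j(H) = 1 - 1/(chi_j(H) - 1)` if `chi_j(H) ≥ 3`, and `0` otherwise. -/
noncomputable def piT {V : Type} (H : SimpleGraph V) (j : ℕ) : ℝ :=
  if 3 ≤ chiDel H j then 1 - 1 / ((chiDel H j : ℝ) - 1) else 0

/-- The conjectured value: the maximum over `1 ≤ j ≤ e(H) - 1` of
`pi_j(H) log l + (1 - pi_j(H)) log j`. -/
noncomputable def formula {V : Type} (H : SimpleGraph V) (l : ℕ) : ℝ :=
  sSup ((fun j : ℕ => piT H j * Real.log l + (1 - piT H j) * Real.log j) ''
    Set.Icc 1 (H.edgeSet.ncard - 1))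

/-- The condition of Q2: `l ^ pi_j * j ^ (1 - pi_j) ≤ e(H) - 1` for every `1 ≤ j ≤ e(H) - 1`. -/
def Q2Cond {V : Type} (H : SimpleGraph V) (l : ℕ) : Prop :=
  ∀ j : ℕ, 1 ≤ j → j ≤ H.edgeSet.ncard - 1 →
    (l : ℝ) ^ piT H j * (j : ℝ) ^ (1 - piT H j) ≤ (H.edgeSet.ncard : ℝ) - 1

/-- The graphs of the problem: no isolated vertex, at least three edges, two adjacent edges. -/
def Admissible {V : Type} (H : SimpleGraph V) : Prop :=
  (∀ v, ∃ w, H.Adj v w) ∧ 3 ≤ H.edgeSet.ncard ∧ ∃ x y z, y ≠ z ∧ H.Adj x y ∧ H.Adj x z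

/-! ### The graph -/

/-- vertices: two bowties (two triangles with a common vertex), `M` middle vertices for each of
the eight pairs (centre, other vertex of the bowtie), and `M` paths between the two centres -/
abbrev W (M : ℕ) : Type := (Fin 2 × Fin 5) ⊕ (((Fin 2 × Fin 4) × Fin M) ⊕ (Fin 2 × Fin M))

/-- adjacency in the bowtie with the triangles `012` and `034` -/
def bow (a b : Fin 5) : Bool :=
  (a != b) && ((a == 0) || (b == 0) || (a == 1 && b == 2) || (a == 2 && b == 1) ||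
    (a == 3 && b == 4) || (a == 4 && b == 3))

/-- adjacency -/
def adjB (M : ℕ) : W M → W M → Prop
  | Sum.inl p, Sum.inl q => p.1 = q.1 ∧ bow p.2 q.2 = true
  | Sum.inl p, Sum.inr (Sum.inl q) => p.1 = q.1.1 ∧ (p.2 = 0 ∨ p.2 = q.1.2.succ)
  | Sum.inr (Sum.inl q), Sum.inl p => p.1 = q.1.1 ∧ (p.2 = 0 ∨ p.2 = q.1.2.succ)
  | Sum.inl p, Sum.inr (Sum.inr q) => p.1 = q.1 ∧ p.2 = 0
  | Sum.inr (Sum.inr q), Sum.inl p => p.1 = q.1 ∧ p.2 = 0
  | Sum.inr (Sum.inr p), Sum.inr (Sum.inr q) => p.1 ≠ q.1 ∧ p.2 = q.2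
  | Sum.inr (Sum.inl _), Sum.inr _ => False
  | Sum.inr (Sum.inr _), Sum.inr (Sum.inl _) => False

lemma bow_symm : ∀ a b : Fin 5, bow a b = true → bow b a = true := by decide
lemma bow_irrefl : ∀ a : Fin 5, ¬ bow a a = true := by decide

/-- Two bowties; in each of them the centre is joined to each other vertex by `M` further paths of
length 2; the two centres are joined by `M` paths of length 3. -/
def G (M : ℕ) : SimpleGraph (W M) where
  Adj := adjB M
  symm := ⟨by
    rintro (p | p | p) (q | q | q) h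
    · exact ⟨h.1.symm, bow_symm _ _ h.2⟩
    · exact h
    · exact h
    · exact h
    · exact h
    · exact h
    · exact h
    · exact h
    · exact ⟨h.1.symm, h.2.symm⟩⟩
  loopless := ⟨by
    rintro (p | p | p) h
    · exact bow_irrefl _ h.2
    · exact h
    · exact h.1 rfl⟩

instance (M : ℕ) : DecidableRel (G M).Adj := fun x y =>
  match x, y with
  | Sum.inl p, Sum.inl q => inferInstanceAs (Decidable (p.1 = q.1 ∧ bow p.2 q.2 = true))
  | Sum.inl p, Sum.inr (Sum.inl q) =>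
      inferInstanceAs (Decidable (p.1 = q.1.1 ∧ (p.2 = 0 ∨ p.2 = q.1.2.succ)))
  | Sum.inr (Sum.inl q), Sum.inl p =>
      inferInstanceAs (Decidable (p.1 = q.1.1 ∧ (p.2 = 0 ∨ p.2 = q.1.2.succ)))
  | Sum.inl p, Sum.inr (Sum.inr q) => inferInstanceAs (Decidable (p.1 = q.1 ∧ p.2 = 0))
  | Sum.inr (Sum.inr q), Sum.inl p => inferInstanceAs (Decidable (p.1 = q.1 ∧ p.2 = 0))
  | Sum.inr (Sum.inr p), Sum.inr (Sum.inr q) =>
      inferInstanceAs (Decidable (p.1 ≠ q.1 ∧ p.2 = q.2))
  | Sum.inr (Sum.inl _), Sum.inr (Sum.inl _) => inferInstanceAs (Decidable False)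
  | Sum.inr (Sum.inl _), Sum.inr (Sum.inr _) => inferInstanceAs (Decidable False)
  | Sum.inr (Sum.inr _), Sum.inr (Sum.inl _) => inferInstanceAs (Decidable False)

section adj
variable (M : ℕ)

lemma adj_11 (p q : Fin 2 × Fin 5) :
    (G M).Adj (Sum.inl p) (Sum.inl q) ↔ (p.1 = q.1 ∧ bow p.2 q.2 = true) := Iff.rfl
lemma adj_12 (p : Fin 2 × Fin 5) (q : (Fin 2 × Fin 4) × Fin M) :
    (G M).Adj (Sum.inl p) (Sum.inr (Sum.inl q)) ↔
      (p.1 = q.1.1 ∧ (p.2 = 0 ∨ p.2 = q.1.2.succ)) := Iff.rfl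
lemma adj_21 (p : Fin 2 × Fin 5) (q : (Fin 2 × Fin 4) × Fin M) :
    (G M).Adj (Sum.inr (Sum.inl q)) (Sum.inl p) ↔
      (p.1 = q.1.1 ∧ (p.2 = 0 ∨ p.2 = q.1.2.succ)) := Iff.rfl
lemma adj_13 (p : Fin 2 × Fin 5) (q : Fin 2 × Fin M) :
    (G M).Adj (Sum.inl p) (Sum.inr (Sum.inr q)) ↔ (p.1 = q.1 ∧ p.2 = 0) := Iff.rfl
lemma adj_31 (p : Fin 2 × Fin 5) (q : Fin 2 × Fin M) :
    (G M).Adj (Sum.inr (Sum.inr q)) (Sum.inl p) ↔ (p.1 = q.1 ∧ p.2 = 0) := Iff.rfl
lemma adj_33 (p q : Fin 2 × Fin M) :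
    (G M).Adj (Sum.inr (Sum.inr p)) (Sum.inr (Sum.inr q)) ↔ (p.1 ≠ q.1 ∧ p.2 = q.2) := Iff.rfl
lemma adj_22 (p q : (Fin 2 × Fin 4) × Fin M) :
    ¬ (G M).Adj (Sum.inr (Sum.inl p)) (Sum.inr (Sum.inl q)) := fun h => h
lemma adj_23 (p : (Fin 2 × Fin 4) × Fin M) (q : Fin 2 × Fin M) :
    ¬ (G M).Adj (Sum.inr (Sum.inl p)) (Sum.inr (Sum.inr q)) := fun h => h
lemma adj_32 (p : (Fin 2 × Fin 4) × Fin M) (q : Fin 2 × Fin M) :
    ¬ (G M).Adj (Sum.inr (Sum.inr q)) (Sum.inr (Sum.inl p)) := fun h => h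

end adj

lemma deg1 (M : ℕ) (p : Fin 2 × Fin 5) :
    (G M).degree (Sum.inl p) = if p.2 = 0 then 4 + 5 * M else 2 + M := by
  rw [← SimpleGraph.card_neighborFinset_eq_degree]
  rw [SimpleGraph.neighborFinset_eq_filter, Finset.card_filter, Fintype.sum_sum_type,
    Fintype.sum_sum_type]
  simp only [adj_11, adj_12, adj_13, Fintype.sum_prod_type]
  obtain ⟨i, k⟩ := p
  fin_cases i <;> fin_cases k <;> simp [Fin.sum_univ_succ, bow]
  any_goals decide
  all_goals
    have h5 : (Finset.univ.filter (fun x : Fin 5 => ¬ 0 = x)).card = 4 := by decide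
    rw [h5]
    ring

lemma deg2 (M : ℕ) (p : (Fin 2 × Fin 4) × Fin M) : (G M).degree (Sum.inr (Sum.inl p)) = 2 := by
  rw [← SimpleGraph.card_neighborFinset_eq_degree]
  rw [SimpleGraph.neighborFinset_eq_filter, Finset.card_filter, Fintype.sum_sum_type,
    Fintype.sum_sum_type]
  obtain ⟨⟨i, k⟩, t⟩ := p
  simp only [adj_21, adj_22, adj_23, Fintype.sum_prod_type]
  fin_cases i <;> fin_cases k <;> simp <;> decide

lemma deg3 (M : ℕ) (p : Fin 2 × Fin M) : (G M).degree (Sum.inr (Sum.inr p)) = 2 := by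
  rw [← SimpleGraph.card_neighborFinset_eq_degree]
  rw [SimpleGraph.neighborFinset_eq_filter, Finset.card_filter, Fintype.sum_sum_type,
    Fintype.sum_sum_type]
  obtain ⟨i, t⟩ := p
  simp only [adj_31, adj_32, adj_33, Fintype.sum_prod_type]
  fin_cases i <;> simp [Fin.sum_univ_succ, Finset.filter_eq', Finset.filter_eq]

lemma card_edges (M : ℕ) : (G M).edgeFinset.card = 19 * M + 12 := by
  have h := (G M).sum_degrees_eq_twice_card_edges
  rw [Fintype.sum_sum_type, Fintype.sum_sum_type] at h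
  simp only [deg1, deg2, deg3, Fintype.sum_prod_type, Fin.sum_univ_succ] at h
  simp at h
  omega

/-! ### The template -/

/-- the palettes: class `0` of the vertices is `X`, classes `1` and `2` are `Y_1` and `Y_2`; pairs
between `X` and `Y` have all `l` colours, pairs inside `X` and pairs between `Y_1` and `Y_2` have
the first `a` colours, pairs inside `Y_1` or inside `Y_2` have the first colour -/
def pal (l a : ℕ) (e : Sym2 (Fin 3)) : Finset (Fin l) :=
  if e = s(1, 1) ∨ e = s(2, 2) then Finset.univ.filter (fun c => c.val < 1)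
  else if e = s(0, 0) ∨ e = s(1, 2) then Finset.univ.filter (fun c => c.val < a)
  else Finset.univ

lemma mem_pal_low {l a : ℕ} {x y : Fin 3} {c : Fin l} (h : c ∈ pal l a s(x, y))
    (hx : x ≠ 0) (hxy : x = y) : c.val < 1 := by
  subst hxy
  unfold pal at h
  have h1 : s(x, x) = s((1 : Fin 3), 1) ∨ s(x, x) = s((2 : Fin 3), 2) := by
    clear h
    revert x
    decide
  rw [if_pos h1] at h
  simpa using h

lemma mem_pal_side {l a : ℕ} (ha : 1 ≤ a) {x y : Fin 3} {c : Fin l} (h : c ∈ pal l a s(x, y))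
    (hxy : (x = 0 ↔ y = 0)) : c.val < a := by
  unfold pal at h
  split_ifs at h with h1 h2
  · have : c.val < 1 := by simpa using h
    omega
  · simpa using h
  · exfalso
    revert hxy h1 h2
    clear h
    revert x y
    decide

/-- `M` distinct edges with colours among the first `a < M` colours cannot have distinct colours -/
lemma few {M l a : ℕ} (haM : a < M) (E : Fin M → (G M).edgeSet) (hE : Function.Injective E)
    (c : (G M).edgeSet → Fin l) (hc : Function.Injective c) (h : ∀ t, (c (E t)).val < a) :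
    False := by
  let g : Fin M → Fin a := fun t => ⟨(c (E t)).val, h t⟩
  have hg : Function.Injective g := by
    intro t t' htt
    have h1 : (c (E t)).val = (c (E t')).val := by simpa [g] using htt
    exact hE (hc (Fin.ext h1))
  have := Fintype.card_le_of_injective g hg
  simp at this
  omega

lemma noSDR {M l a : ℕ} (ha : 1 ≤ a) (haM : a < M) (g : W M → Fin 3)
    (c : (G M).edgeSet → Fin l) (hc : Function.Injective c)
    (hcm : ∀ e : (G M).edgeSet, c e ∈ pal l a (Sym2.map g e.1)) : False := by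
  classical
  -- the bowties lie on one side each
  have hA : ∀ (i : Fin 2) (k : Fin 4),
      (g (Sum.inl (i, k.succ)) = 0 ↔ g (Sum.inl (i, 0)) = 0) := by
    intro i k
    by_contra hne
    let u : Fin M → Fin 5 := fun t =>
      if (g (Sum.inr (Sum.inl ((i, k), t))) = 0 ↔ g (Sum.inl (i, 0)) = 0) then 0 else k.succ
    have hE : ∀ t, s(Sum.inl (i, u t), Sum.inr (Sum.inl ((i, k), t))) ∈ (G M).edgeSet := by
      intro t
      rw [SimpleGraph.mem_edgeSet, adj_12]
      refine ⟨rfl, ?_⟩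
      by_cases h : (g (Sum.inr (Sum.inl ((i, k), t))) = 0 ↔ g (Sum.inl (i, 0)) = 0)
      · left; simp [u, h]
      · right; simp [u, h]
    refine few haM (fun t => ⟨_, hE t⟩) ?_ c hc ?_
    · intro t t' htt
      have h3 : s(Sum.inl (i, u t), Sum.inr (Sum.inl ((i, k), t)))
          = s(Sum.inl (i, u t'), (Sum.inr (Sum.inl ((i, k), t')) : W M)) := by
        simpa using htt
      rw [Sym2.eq_iff] at h3
      rcases h3 with ⟨_, h3⟩ | ⟨h3, _⟩
      · simpa using h3
      · simp at h3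
    · intro t
      have h1 := hcm ⟨_, hE t⟩
      simp only [Sym2.map_mk] at h1
      refine mem_pal_side ha h1 ?_
      by_cases h : (g (Sum.inr (Sum.inl ((i, k), t))) = 0 ↔ g (Sum.inl (i, 0)) = 0)
      · have : u t = 0 := by simp [u, h]
        rw [this]
        exact h.symm
      · have : u t = k.succ := by simp [u, h]
        rw [this]
        tauto
  -- the two bowties lie on different sides
  have hB : ¬ (g (Sum.inl (0, 0)) = 0 ↔ g (Sum.inl (1, 0)) = 0) := by
    intro hs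
    -- the inner edge of the path number `t`
    have hex : ∀ t : Fin M, ∃ e : Sym2 (W M), e ∈ (G M).edgeSet ∧
        (∃ x y, e = s(x, y) ∧ (g x = 0 ↔ g y = 0)) ∧
        ((∃ i, e = s(Sum.inl (i, 0), Sum.inr (Sum.inr (i, t)))) ∨
          e = s(Sum.inr (Sum.inr (0, t)), Sum.inr (Sum.inr (1, t)))) := by
      intro t
      by_cases h0 : (g (Sum.inl (0, 0)) = 0 ↔ g (Sum.inr (Sum.inr (0, t))) = 0)
      · refine ⟨s(Sum.inl (0, 0), Sum.inr (Sum.inr (0, t))), ?_, ⟨_, _, rfl, h0⟩, Or.inl ⟨0, rfl⟩⟩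
        rw [SimpleGraph.mem_edgeSet, adj_13]
        exact ⟨rfl, rfl⟩
      · by_cases h1 : (g (Sum.inl (1, 0)) = 0 ↔ g (Sum.inr (Sum.inr (1, t))) = 0)
        · refine ⟨s(Sum.inl (1, 0), Sum.inr (Sum.inr (1, t))), ?_, ⟨_, _, rfl, h1⟩,
            Or.inl ⟨1, rfl⟩⟩
          rw [SimpleGraph.mem_edgeSet, adj_13]
          exact ⟨rfl, rfl⟩
        · refine ⟨s(Sum.inr (Sum.inr (0, t)), Sum.inr (Sum.inr (1, t))), ?_,
            ⟨_, _, rfl, ?_⟩, Or.inr rfl⟩
          · rw [SimpleGraph.mem_edgeSet, adj_33]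
            exact ⟨by simp, rfl⟩
          · tauto
    choose E hE1 hE2 hE3 using hex
    refine few haM (fun t => ⟨E t, hE1 t⟩) ?_ c hc ?_
    · intro t t' htt
      have h3 : E t = E t' := by simpa using htt
      rcases hE3 t with ⟨i, h4⟩ | h4 <;> rcases hE3 t' with ⟨j, h5⟩ | h5 <;>
        rw [h4, h5, Sym2.eq_iff] at h3 <;> simp at h3
      · exact h3.2
      · tauto
    · intro t
      obtain ⟨x, y, hxy, hg⟩ := hE2 t
      have h1 := hcm ⟨_, hE1 t⟩
      have h2 : Sym2.map g (E t) = s(g x, g y) := by rw [hxy, Sym2.map_mk]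
      rw [show Sym2.map g ((⟨E t, hE1 t⟩ : (G M).edgeSet) : Sym2 (W M)) = s(g x, g y) from h2]
        at h1
      exact mem_pal_side ha h1 hg
  -- one bowtie lies in `Y`
  obtain ⟨i, hi⟩ : ∃ i : Fin 2, g (Sum.inl (i, 0)) ≠ 0 := by
    by_contra hcon
    push Not at hcon
    exact hB (by simp [hcon])
  have hY : ∀ k : Fin 5, g (Sum.inl (i, k)) ≠ 0 := by
    intro k
    refine Fin.cases hi (fun k => ?_) k
    intro h
    exact hi ((hA i k).1 h)
  have hE : ∀ a b : Fin 5, bow a b = true → s(Sum.inl (i, a), Sum.inl (i, b)) ∈ (G M).edgeSet := by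
    intro a b hab
    rw [SimpleGraph.mem_edgeSet, adj_11]
    exact ⟨rfl, hab⟩
  have key : ∀ a b a' b' : Fin 5, bow a b = true → bow a' b' = true → s(a, b) ≠ s(a', b') →
      ¬ (g (Sum.inl (i, a)) = g (Sum.inl (i, b)) ∧ g (Sum.inl (i, a')) = g (Sum.inl (i, b'))) := by
    rintro a b a' b' hab hab' hne ⟨h1, h2⟩
    have m1 := hcm ⟨_, hE a b hab⟩
    have m2 := hcm ⟨_, hE a' b' hab'⟩
    simp only [Sym2.map_mk] at m1 m2
    have l1 := mem_pal_low m1 (hY a) h1
    have l2 := mem_pal_low m2 (hY a') h2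
    have h3 := hc (Fin.ext (show (c ⟨_, hE a b hab⟩).val = (c ⟨_, hE a' b' hab'⟩).val by omega))
    apply hne
    have h4 : s(Sum.inl (i, a), Sum.inl (i, b)) = s(Sum.inl (i, a'), (Sum.inl (i, b') : W M)) := by
      simpa using congrArg Subtype.val h3
    rw [Sym2.eq_iff] at h4 ⊢
    simpa using h4
  have tri : ∀ x y z : Fin 3, x ≠ 0 → y ≠ 0 → z ≠ 0 → x = y ∨ x = z ∨ y = z := by decide
  have t1 := tri _ _ _ (hY 0) (hY 1) (hY 2)
  have t2 := tri _ _ _ (hY 0) (hY 3) (hY 4)
  rcases t1 with t1 | t1 | t1 <;> rcases t2 with t2 | t2 | t2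
  · exact key 0 1 0 3 (by decide) (by decide) (by decide) ⟨t1, t2⟩
  · exact key 0 1 0 4 (by decide) (by decide) (by decide) ⟨t1, t2⟩
  · exact key 0 1 3 4 (by decide) (by decide) (by decide) ⟨t1, t2⟩
  · exact key 0 2 0 3 (by decide) (by decide) (by decide) ⟨t1, t2⟩
  · exact key 0 2 0 4 (by decide) (by decide) (by decide) ⟨t1, t2⟩
  · exact key 0 2 3 4 (by decide) (by decide) (by decide) ⟨t1, t2⟩
  · exact key 1 2 0 3 (by decide) (by decide) (by decide) ⟨t1, t2⟩
  · exact key 1 2 0 4 (by decide) (by decide) (by decide) ⟨t1, t2⟩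
  · exact key 1 2 3 4 (by decide) (by decide) (by decide) ⟨t1, t2⟩

lemma sdrFree {M n l a : ℕ} (ha : 1 ≤ a) (haM : a < M) (κ : Fin n → Fin 3) :
    SDRFree (G M) (fun e : Sym2 (Fin n) => pal l a (Sym2.map κ e)) := by
  rintro f _ ⟨c, hc, hcm⟩
  refine noSDR ha haM (κ ∘ f) c hc ?_
  intro e
  have h : c e ∈ pal l a (Sym2.map κ (Sym2.map f e.1)) := hcm e
  rwa [Sym2.map_map] at h

/-! ### Random classes -/

/-- the expectation of a function of two independent coordinates -/
lemma expect_two {ι α : Type} [Fintype ι] [DecidableEq ι] [Fintype α] [DecidableEq α]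
    (w : α → ℝ) (hw : ∑ a, w a = 1) (F : α → α → ℝ) {x y : ι} (hxy : x ≠ y) :
    ∑ κ : ι → α, (∏ i, w (κ i)) * F (κ x) (κ y) = ∑ a, ∑ b, w a * w b * F a b := by
  have h1 : ∀ a b : α, ∑ κ : ι → α, (∏ i, w (κ i)) * (if κ x = a ∧ κ y = b then 1 else 0)
      = w a * w b := by
    intro a b
    have h2 : ∀ κ : ι → α, (∏ i, w (κ i)) * (if κ x = a ∧ κ y = b then (1 : ℝ) else 0)
        = ∏ i, (w (κ i) * (if i = x then (if κ i = a then 1 else 0) else 1) *
            (if i = y then (if κ i = b then 1 else 0) else 1)) := by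
      intro κ
      rw [Finset.prod_mul_distrib, Finset.prod_mul_distrib, mul_assoc]
      congr 1
      rw [Finset.prod_ite_eq' Finset.univ x (fun i => if κ i = a then (1 : ℝ) else 0),
        Finset.prod_ite_eq' Finset.univ y (fun i => if κ i = b then (1 : ℝ) else 0)]
      by_cases hx : κ x = a <;> by_cases hy : κ y = b <;> simp [hx, hy]
    simp_rw [h2]
    have h3 := Finset.prod_univ_sum (fun _ : ι => (Finset.univ : Finset α))
      (fun i c => (w c * (if i = x then (if c = a then (1 : ℝ) else 0) else 1) *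
            (if i = y then (if c = b then 1 else 0) else 1)))
    rw [Fintype.piFinset_univ] at h3
    rw [← h3]
    rw [Finset.prod_eq_mul x y hxy]
    · congr 1
      · simp [hxy]
      · simp [hxy.symm]
    · intro i _ hi
      simp [hi.1, hi.2, hw]
    · simp
    · simp
  have h4 : ∀ κ : ι → α, (∏ i, w (κ i)) * F (κ x) (κ y)
      = ∑ a, ∑ b, (∏ i, w (κ i)) * (if κ x = a ∧ κ y = b then 1 else 0) * F a b := by
    intro κ
    rw [Finset.sum_eq_single (κ x), Finset.sum_eq_single (κ y)]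
    · simp
    · intro b _ hb
      simp [hb.symm]
    · simp
    · intro a _ ha
      refine Finset.sum_eq_zero fun b _ => ?_
      simp [ha.symm]
    · simp
  simp_rw [h4]
  rw [Finset.sum_comm]
  refine Finset.sum_congr rfl fun a _ => ?_
  rw [Finset.sum_comm]
  refine Finset.sum_congr rfl fun b _ => ?_
  rw [← Finset.sum_mul, h1]

/-- the weights of the three classes -/
noncomputable def wt (q : ℝ) : Fin 3 → ℝ := fun a => if a = 0 then 1 - q else q / 2

lemma wt0 (q : ℝ) : wt q 0 = 1 - q := by unfold wt; rw [if_pos rfl]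
lemma wt1 (q : ℝ) : wt q 1 = q / 2 := by unfold wt; rw [if_neg (by decide)]
lemma wt2 (q : ℝ) : wt q 2 = q / 2 := by unfold wt; rw [if_neg (by decide)]

lemma sum_wt (q : ℝ) : ∑ a, wt q a = 1 := by
  rw [Fin.sum_univ_three, wt0, wt1, wt2]
  ring

lemma wt_nonneg {q : ℝ} (h0 : 0 ≤ q) (h1 : q ≤ 1) (a : Fin 3) : 0 ≤ wt q a := by
  unfold wt
  split_ifs <;> linarith

lemma card_pal (l a : ℕ) (ha : 1 ≤ a) (hal : a ≤ l) (e : Sym2 (Fin 3)) :
    (pal l a e).card = if e = s(1, 1) ∨ e = s(2, 2) then 1 else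
      if e = s(0, 0) ∨ e = s(1, 2) then a else l := by
  have hc : ∀ b : ℕ, b ≤ l → (Finset.univ.filter (fun c : Fin l => c.val < b)).card = b := by
    intro b hb
    rw [Fin.card_filter_val_lt]
    omega
  unfold pal
  split_ifs
  · exact hc 1 (by omega)
  · exact hc a hal
  · simp

lemma value (l a : ℕ) (ha : 1 ≤ a) (hal : a ≤ l) (q : ℝ) :
    ∑ i, ∑ j, wt q i * wt q j * Real.log ((pal l a s(i, j)).card : ℝ)
      = 2 * q * (1 - q) * Real.log l + ((1 - q) ^ 2 + q ^ 2 / 2) * Real.log a := by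
  have c00 : (pal l a s(0, 0)).card = a := by
    rw [card_pal l a ha hal, if_neg (by decide), if_pos (by decide)]
  have c01 : (pal l a s(0, 1)).card = l := by
    rw [card_pal l a ha hal, if_neg (by decide), if_neg (by decide)]
  have c02 : (pal l a s(0, 2)).card = l := by
    rw [card_pal l a ha hal, if_neg (by decide), if_neg (by decide)]
  have c10 : (pal l a s(1, 0)).card = l := by
    rw [card_pal l a ha hal, if_neg (by decide), if_neg (by decide)]
  have c11 : (pal l a s(1, 1)).card = 1 := by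
    rw [card_pal l a ha hal, if_pos (by decide)]
  have c12 : (pal l a s(1, 2)).card = a := by
    rw [card_pal l a ha hal, if_neg (by decide), if_pos (by decide)]
  have c20 : (pal l a s(2, 0)).card = l := by
    rw [card_pal l a ha hal, if_neg (by decide), if_neg (by decide)]
  have c21 : (pal l a s(2, 1)).card = a := by
    rw [card_pal l a ha hal, if_neg (by decide), if_pos (by decide)]
  have c22 : (pal l a s(2, 2)).card = 1 := by
    rw [card_pal l a ha hal, if_pos (by decide)]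
  simp only [Fin.sum_univ_three, c00, c01, c02, c10, c11, c12, c20, c21, c22, wt0, wt1, wt2,
    Nat.cast_one, Real.log_one]
  ring

lemma pal_nonempty (l a : ℕ) (ha : 1 ≤ a) (hal : a ≤ l) (e : Sym2 (Fin 3)) :
    (pal l a e).Nonempty := by
  rw [← Finset.card_pos, card_pal l a ha hal]
  split_ifs <;> omega

lemma exLog_ge (M n l a : ℕ) (ha : 1 ≤ a) (haM : a < M) (hal : a ≤ l) {q : ℝ} (h0 : 0 ≤ q)
    (h1 : q ≤ 1) :
    ((n.choose 2 : ℕ) : ℝ) *
        (2 * q * (1 - q) * Real.log l + ((1 - q) ^ 2 + q ^ 2 / 2) * Real.log a)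
      ≤ exLog (G M) n l := by
  classical
  have hb : BddAbove {x : ℝ | ∃ P : Sym2 (Fin n) → Finset (Fin l),
      (∀ e, ¬ e.IsDiag → (P e).Nonempty) ∧ SDRFree (G M) P ∧
      x = ∑ e ∈ (⊤ : SimpleGraph (Fin n)).edgeFinset, Real.log ((P e).card : ℝ)} := by
    apply Set.Finite.bddAbove
    refine (Set.finite_range (fun P : Sym2 (Fin n) → Finset (Fin l) =>
      ∑ e ∈ (⊤ : SimpleGraph (Fin n)).edgeFinset, Real.log ((P e).card : ℝ))).subset ?_
    rintro x ⟨P, _, _, rfl⟩
    exact ⟨P, rfl⟩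
  have hκ : ∀ κ : Fin n → Fin 3, ∑ e ∈ (⊤ : SimpleGraph (Fin n)).edgeFinset,
      Real.log ((pal l a (Sym2.map κ e)).card : ℝ) ≤ exLog (G M) n l := fun κ =>
    le_csSup hb ⟨fun e => pal l a (Sym2.map κ e), fun e _ => pal_nonempty l a ha hal _,
      sdrFree ha haM κ, rfl⟩
  have hW : ∑ κ : Fin n → Fin 3, (∏ i, wt q (κ i)) = 1 := by
    have h3 := Finset.prod_univ_sum (fun _ : Fin n => (Finset.univ : Finset (Fin 3)))
      (fun _ c => wt q c)
    rw [Fintype.piFinset_univ] at h3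
    rw [← h3]
    simp [sum_wt]
  have hedge : ∀ e ∈ (⊤ : SimpleGraph (Fin n)).edgeFinset,
      ∑ κ : Fin n → Fin 3, (∏ i, wt q (κ i)) * Real.log ((pal l a (Sym2.map κ e)).card : ℝ)
        = 2 * q * (1 - q) * Real.log l + ((1 - q) ^ 2 + q ^ 2 / 2) * Real.log a := by
    intro e he
    induction e using Sym2.ind with
    | _ x y =>
      have hxy : x ≠ y := by simpa using he
      rw [← value l a ha hal q,
        ← expect_two (wt q) (sum_wt q) (fun i j => Real.log ((pal l a s(i, j)).card : ℝ)) hxy]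
      rfl
  calc ((n.choose 2 : ℕ) : ℝ) *
        (2 * q * (1 - q) * Real.log l + ((1 - q) ^ 2 + q ^ 2 / 2) * Real.log a)
      = ∑ e ∈ (⊤ : SimpleGraph (Fin n)).edgeFinset,
          (2 * q * (1 - q) * Real.log l + ((1 - q) ^ 2 + q ^ 2 / 2) * Real.log a) := by
        rw [Finset.sum_const, nsmul_eq_mul, SimpleGraph.card_edgeFinset_top_eq_card_choose_two,
          Fintype.card_fin]
    _ = ∑ e ∈ (⊤ : SimpleGraph (Fin n)).edgeFinset, ∑ κ : Fin n → Fin 3,
          (∏ i, wt q (κ i)) * Real.log ((pal l a (Sym2.map κ e)).card : ℝ) :=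
        Finset.sum_congr rfl fun e he => (hedge e he).symm
    _ = ∑ κ : Fin n → Fin 3, (∏ i, wt q (κ i)) *
          ∑ e ∈ (⊤ : SimpleGraph (Fin n)).edgeFinset,
            Real.log ((pal l a (Sym2.map κ e)).card : ℝ) := by
        rw [Finset.sum_comm]
        exact Finset.sum_congr rfl fun κ _ => (Finset.mul_sum _ _ _).symm
    _ ≤ ∑ κ : Fin n → Fin 3, (∏ i, wt q (κ i)) * exLog (G M) n l :=
        Finset.sum_le_sum fun κ _ => mul_le_mul_of_nonneg_left (hκ κ)
          (Finset.prod_nonneg fun i _ => wt_nonneg h0 h1 _)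
    _ = exLog (G M) n l := by rw [← Finset.sum_mul, hW, one_mul]

lemma lam_ge (M l a : ℕ) (ha : 1 ≤ a) (haM : a < M) (hal : a ≤ l) {q : ℝ} (h0 : 0 ≤ q)
    (h1 : q ≤ 1) :
    2 * q * (1 - q) * Real.log l + ((1 - q) ^ 2 + q ^ 2 / 2) * Real.log a ≤ lam (G M) l := by
  unfold lam
  have : Nonempty {n : ℕ // Fintype.card (W M) ≤ n} := ⟨⟨_, le_refl _⟩⟩
  apply le_ciInf
  rintro ⟨n, hn⟩
  have hn2 : 2 ≤ n := by
    have : Fintype.card (W M) = 2 * 5 + (2 * 4 * M + 2 * M) := by simp
    omega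
  have hpos : (0 : ℝ) < ((n.choose 2 : ℕ) : ℝ) := by
    exact_mod_cast Nat.choose_pos hn2
  rw [le_div_iff₀ hpos, mul_comm]
  exact exLog_ge M n l a ha haM hal h0 h1

/-! ### Chromatic numbers -/

lemma chiDel_le {V : Type} (H : SimpleGraph V) (j c : ℕ) (S : Finset (Sym2 V))
    (hS : (S : Set (Sym2 V)) ⊆ H.edgeSet) (hj : S.card = j)
    (hc : (H.deleteEdges (S : Set (Sym2 V))).Colorable c) : chiDel H j ≤ c := by
  have h1 := hc.chromaticNumber_le
  have hne : (H.deleteEdges (S : Set (Sym2 V))).chromaticNumber ≠ ⊤ := ne_top_of_le_ne_top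
    (ENat.natCast_ne_top c) h1
  obtain ⟨d, hd⟩ := ENat.ne_top_iff_exists.1 hne
  rw [← hd] at h1
  have h2 : d ≤ c := by exact_mod_cast h1
  exact le_trans (Nat.sInf_le ⟨S, hS, hj, hd.symm⟩) h2

/-- a colouring with three colours -/
def col3 (M : ℕ) : W M → Fin 3
  | Sum.inl p => if p.2 = 0 then 0 else if p.2 = 1 ∨ p.2 = 3 then 1 else 2
  | Sum.inr (Sum.inl p) => if p.1.2 = 0 ∨ p.1.2 = 2 then 2 else 1
  | Sum.inr (Sum.inr p) => if p.1 = 0 then 1 else 2

/-- a colouring with two colours, proper except for the edges of the bowties -/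
def col2 (M : ℕ) : W M → Fin 2
  | Sum.inl p => p.1
  | Sum.inr (Sum.inl p) => 1 - p.1.1
  | Sum.inr (Sum.inr p) => 1 - p.1

lemma col_aux1 : ∀ a b : Fin 5, bow a b = true →
    (if a = 0 then (0 : Fin 3) else if a = 1 ∨ a = 3 then 1 else 2) ≠
      (if b = 0 then 0 else if b = 1 ∨ b = 3 then 1 else 2) := by decide

lemma col_aux2 : ∀ (a : Fin 5) (k : Fin 4), (a = 0 ∨ a = k.succ) →
    (if a = 0 then (0 : Fin 3) else if a = 1 ∨ a = 3 then 1 else 2) ≠
      (if k = 0 ∨ k = 2 then 2 else 1) := by decide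

lemma col_aux3 : ∀ (a : Fin 5) (i : Fin 2), a = 0 →
    (if a = 0 then (0 : Fin 3) else if a = 1 ∨ a = 3 then 1 else 2) ≠
      (if i = 0 then 1 else 2) := by decide

lemma col_aux4 : ∀ i j : Fin 2, i ≠ j →
    (if i = 0 then (1 : Fin 3) else 2) ≠ (if j = 0 then 1 else 2) := by decide

lemma col_aux5 : ∀ i j : Fin 2, i = j → i ≠ 1 - j := by decide
lemma col_aux6 : ∀ i j : Fin 2, i ≠ j → (1 - i) ≠ 1 - j := by decide

lemma colorable3 (M : ℕ) : (G M).Colorable 3 := by
  refine ⟨SimpleGraph.Coloring.mk (col3 M) ?_⟩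
  intro v w h
  rcases v with p | p | p <;> rcases w with q | q | q
  · rw [adj_11] at h
    exact col_aux1 _ _ h.2
  · rw [adj_12] at h
    exact col_aux2 _ _ h.2
  · rw [adj_13] at h
    exact col_aux3 _ _ h.2
  · rw [adj_21] at h
    exact (col_aux2 _ _ h.2).symm
  · exact absurd h (adj_22 M p q)
  · exact absurd h (adj_23 M p q)
  · rw [adj_31] at h
    exact (col_aux3 _ _ h.2).symm
  · exact absurd h (adj_32 M q p)
  · rw [adj_33] at h
    exact col_aux4 _ _ h.1

lemma chi_le_three (M j : ℕ) (h2 : j ≤ 19 * M + 12) : chiDel (G M) j ≤ 3 := by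
  classical
  obtain ⟨S, hS2, hS3⟩ := Finset.exists_subset_card_eq (s := (G M).edgeFinset) (n := j)
    (by rw [card_edges]; exact h2)
  refine chiDel_le (G M) j 3 S ?_ hS3 ?_
  · intro e he
    exact SimpleGraph.mem_edgeFinset.1 (hS2 he)
  · exact (colorable3 M).mono_left (SimpleGraph.deleteEdges_le _)

/-- the six edges of the bowtie -/
def E6 : Fin 6 → Fin 5 × Fin 5 := ![(0, 1), (0, 2), (1, 2), (0, 3), (0, 4), (3, 4)]

lemma E6_bow : ∀ k : Fin 6, bow (E6 k).1 (E6 k).2 = true := by decide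

lemma bow_E6 : ∀ a b : Fin 5, bow a b = true →
    ∃ k : Fin 6, (a = (E6 k).1 ∧ b = (E6 k).2) ∨ (a = (E6 k).2 ∧ b = (E6 k).1) := by decide

lemma chi_le_two (M j : ℕ) (h1 : 12 ≤ j) (h2 : j ≤ 19 * M + 12) : chiDel (G M) j ≤ 2 := by
  classical
  let K : Finset (Sym2 (W M)) := (Finset.univ : Finset (Fin 2 × Fin 6)).image
      (fun p => s(Sum.inl (p.1, (E6 p.2).1), Sum.inl (p.1, (E6 p.2).2)))
  have hsub : K ⊆ (G M).edgeFinset := by
    intro e he
    rw [Finset.mem_image] at he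
    obtain ⟨⟨i, k⟩, _, rfl⟩ := he
    rw [SimpleGraph.mem_edgeFinset, SimpleGraph.mem_edgeSet, adj_11]
    exact ⟨rfl, E6_bow k⟩
  have hK : K.card ≤ 12 := le_trans Finset.card_image_le (by simp)
  obtain ⟨S, hS1, hS2, hS3⟩ := Finset.exists_subsuperset_card_eq (n := j) hsub
    (by omega) (by rw [card_edges]; exact h2)
  refine chiDel_le (G M) j 2 S ?_ hS3 ?_
  · intro e he
    exact SimpleGraph.mem_edgeFinset.1 (hS2 he)
  · refine ⟨SimpleGraph.Coloring.mk (col2 M) ?_⟩
    intro v w hvw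
    rw [SimpleGraph.deleteEdges_adj] at hvw
    obtain ⟨h, hn⟩ := hvw
    rcases v with p | p | p <;> rcases w with q | q | q
    · exfalso
      apply hn
      apply hS1
      rw [adj_11] at h
      rw [Finset.mem_image]
      obtain ⟨k, hk⟩ := bow_E6 _ _ h.2
      refine ⟨(p.1, k), Finset.mem_univ _, ?_⟩
      obtain ⟨p1, p2⟩ := p
      obtain ⟨q1, q2⟩ := q
      simp only at h hk ⊢
      rw [Sym2.eq_iff]
      rcases hk with ⟨h5, h6⟩ | ⟨h5, h6⟩
      · left
        rw [h5, h6, ← h.1]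
        exact ⟨rfl, rfl⟩
      · right
        rw [h5, h6, ← h.1]
        exact ⟨rfl, rfl⟩
    · rw [adj_12] at h
      exact col_aux5 _ _ h.1
    · rw [adj_13] at h
      exact col_aux5 _ _ h.1
    · rw [adj_21] at h
      exact (col_aux5 _ _ h.1).symm
    · exact absurd h (adj_22 M p q)
    · exact absurd h (adj_23 M p q)
    · rw [adj_31] at h
      exact (col_aux5 _ _ h.1).symm
    · exact absurd h (adj_32 M q p)
    · rw [adj_33] at h
      exact col_aux6 _ _ h.1

lemma piT_cases (M j : ℕ) (h2 : j ≤ 19 * M + 12) :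
    piT (G M) j = 0 ∨ (j ≤ 11 ∧ piT (G M) j = 1 / 2) := by
  unfold piT
  by_cases h : 3 ≤ chiDel (G M) j
  · right
    constructor
    · by_contra hj
      have := chi_le_two M j (by omega) h2
      omega
    · have h3 : chiDel (G M) j = 3 := le_antisymm (chi_le_three M j h2) h
      rw [if_pos h, h3]
      norm_num
  · left
    rw [if_neg h]

/-! ### The conjectured value -/

lemma hcard (M : ℕ) : (G M).edgeSet.ncard = 19 * M + 12 := by
  rw [← SimpleGraph.coe_edgeFinset, Set.ncard_coe_finset, card_edges]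

lemma term_le (M l j : ℕ) (h1 : 1 ≤ j) (h2 : j ≤ 19 * M + 11) :
    piT (G M) j * Real.log l + (1 - piT (G M) j) * Real.log j
      ≤ max (Real.log (19 * M + 11)) ((Real.log l + Real.log 11) / 2) := by
  have hj0 : (0 : ℝ) < j := by exact_mod_cast h1
  rcases piT_cases M j (by omega) with h | ⟨h11, h⟩
  · rw [h]
    refine le_trans ?_ (le_max_left _ _)
    have : (j : ℝ) ≤ 19 * M + 11 := by exact_mod_cast h2
    have := Real.log_le_log hj0 this
    linarith
  · rw [h]
    refine le_trans ?_ (le_max_right _ _)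
    have : (j : ℝ) ≤ 11 := by exact_mod_cast h11
    have := Real.log_le_log hj0 this
    linarith

lemma formula_le (M l : ℕ) : formula (G M) l
      ≤ max (Real.log (19 * M + 11)) ((Real.log l + Real.log 11) / 2) := by
  unfold formula
  apply csSup_le
  · refine Set.Nonempty.image _ ⟨1, ?_⟩
    rw [hcard, Set.mem_Icc]
    omega
  · rintro x ⟨j, hj, rfl⟩
    rw [hcard, Set.mem_Icc] at hj
    exact term_le M l j hj.1 (by omega)

lemma half_le (M l : ℕ) (hl : 1 ≤ l) (h : 11 * (l : ℝ) ≤ (19 * M + 11) ^ 2) :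
    (Real.log l + Real.log 11) / 2 ≤ Real.log (19 * (M : ℝ) + 11) := by
  have hl0 : (0 : ℝ) < l := by exact_mod_cast hl
  have h2 := Real.log_le_log (by positivity) h
  rw [Real.log_mul (by norm_num) (by positivity), Real.log_pow] at h2
  push_cast at h2
  linarith

lemma formula_eq (M l : ℕ) (hM : 1 ≤ M) (hl : 1 ≤ l) (h : 11 * (l : ℝ) ≤ (19 * M + 11) ^ 2) :
    formula (G M) l = Real.log (19 * M + 11) := by
  apply le_antisymm
  · exact le_trans (formula_le M l) (max_le le_rfl (half_le M l hl h))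
  · unfold formula
    refine le_csSup ?_ ?_
    · exact (Set.Finite.image _ (Set.finite_Icc _ _)).bddAbove
    · refine ⟨19 * M + 11, ?_, ?_⟩
      · rw [hcard, Set.mem_Icc]
        omega
      · have h0 : piT (G M) (19 * M + 11) = 0 := by
          rcases piT_cases M (19 * M + 11) (by omega) with h | ⟨h, _⟩
          · exact h
          · omega
        simp only [h0]
        push_cast
        ring

lemma q2Cond (M l : ℕ) (hl : 1 ≤ l) (h : 11 * (l : ℝ) ≤ (19 * M + 11) ^ 2) :
    Q2Cond (G M) l := by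
  intro j h1 h2
  rw [hcard] at h2 ⊢
  have hE : (((19 * M + 12 : ℕ) : ℝ) - 1) = 19 * M + 11 := by push_cast; ring
  rw [hE]
  rcases piT_cases M j (by omega) with h0 | ⟨h11, h0⟩
  · rw [h0]
    simp only [Real.rpow_zero, sub_zero, Real.rpow_one, one_mul]
    have : j ≤ 19 * M + 11 := by omega
    exact_mod_cast this
  · rw [h0, show (1 : ℝ) - 1 / 2 = 1 / 2 by norm_num, ← Real.mul_rpow (by positivity)
      (by positivity), ← Real.sqrt_eq_rpow]
    rw [Real.sqrt_le_left (by positivity)]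
    have h3 : (j : ℝ) ≤ 11 := by exact_mod_cast h11
    have h4 : (0 : ℝ) ≤ l := by positivity
    nlinarith

/-! ### The lower bounds -/

lemma log40 : Real.log 40 < 4 := by
  rw [Real.log_lt_iff_lt_exp (by norm_num)]
  have h := Real.exp_one_gt_d9
  have h2 : Real.exp 4 = Real.exp 1 ^ 4 := by
    rw [← Real.exp_nat_mul]; norm_num
  rw [h2]
  calc (40 : ℝ) < 2.7182818283 ^ 4 := by norm_num
    _ ≤ Real.exp 1 ^ 4 := by gcongr

lemma log11 : Real.log 11 < 3 := by
  rw [Real.log_lt_iff_lt_exp (by norm_num)]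
  have h := Real.exp_one_gt_d9
  have h2 : Real.exp 3 = Real.exp 1 ^ 3 := by
    rw [← Real.exp_nat_mul]; norm_num
  rw [h2]
  calc (11 : ℝ) < 2.7182818283 ^ 3 := by norm_num
    _ ≤ Real.exp 1 ^ 3 := by gcongr

lemma lam_ge' (M l : ℕ) (hM : 3 ≤ M) (hl : 19 * M + 11 ≤ l) {q : ℝ} (h0 : 0 ≤ q)
    (h1 : q ≤ 1) :
    2 * q * (1 - q) * Real.log l + ((1 - q) ^ 2 + q ^ 2 / 2) * Real.log (19 * M + 11)
      - Real.log 40 ≤ lam (G M) l := by
  have h := lam_ge M l (M - 1) (by omega) (by omega) (by omega) h0 h1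
  have h2 : Real.log (19 * (M : ℝ) + 11) - Real.log 40 ≤ Real.log ((M - 1 : ℕ) : ℝ) := by
    have hM1 : (0 : ℝ) < ((M - 1 : ℕ) : ℝ) := by
      have : 0 < M - 1 := by omega
      exact_mod_cast this
    have h3 : 19 * (M : ℝ) + 11 ≤ 40 * ((M - 1 : ℕ) : ℝ) := by
      rw [Nat.cast_sub (by omega)]
      have : (3 : ℝ) ≤ M := by exact_mod_cast hM
      push_cast
      linarith
    have h4 := Real.log_le_log (by positivity) h3
    rw [Real.log_mul (by norm_num) (by positivity)] at h4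
    linarith
  have hc0 : 0 ≤ (1 - q) ^ 2 + q ^ 2 / 2 := by positivity
  have hc1 : (1 - q) ^ 2 + q ^ 2 / 2 ≤ 1 := by nlinarith
  have h40 : 0 ≤ Real.log 40 := Real.log_nonneg (by norm_num)
  have h5 := mul_le_mul_of_nonneg_left h2 hc0
  have h6 := mul_le_mul_of_nonneg_right hc1 h40
  nlinarith

/-- the bound below the square of the number of edges -/
lemma lam_low (M l : ℕ) (hM : 3 ≤ M) (hl : 19 * M + 11 ≤ l)
    (h : Real.log l ≤ 2 * Real.log (19 * M + 11)) :
    Real.log (19 * M + 11) + 2 / 5 * (Real.log l - Real.log (19 * M + 11)) ^ 2 /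
      Real.log (19 * M + 11) - Real.log 40 ≤ lam (G M) l := by
  set L := Real.log (19 * (M : ℝ) + 11) with hL
  have hL0 : 0 < L := by
    apply Real.log_pos
    have : (0 : ℝ) ≤ M := by positivity
    linarith
  set s := Real.log l - L with hs
  have hs0 : 0 ≤ s := by
    have : Real.log (19 * (M : ℝ) + 11) ≤ Real.log l :=
      Real.log_le_log (by positivity) (by exact_mod_cast hl)
    linarith
  have hsL : s ≤ L := by linarith
  have hq0 : 0 ≤ 2 / 5 * (s / L) := by positivity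
  have hq1 : s / L ≤ 1 := (div_le_one hL0).2 hsL
  have h1 := lam_ge' M l hM hl hq0 (by linarith)
  refine le_trans ?_ h1
  rw [← hL]
  have hlog : Real.log l = L + s := by linarith
  rw [hlog]
  have hsx : s = (s / L) * L := by field_simp
  set x := s / L with hx
  have hx0 : 0 ≤ x := by positivity
  rw [hsx]
  have e1 : 2 / 5 * (x * L) ^ 2 / L = 2 / 5 * x ^ 2 * L := by field_simp
  rw [e1]
  have key : 0 ≤ x ^ 2 * (1 - x) * L := by
    have : 0 ≤ 1 - x := by linarith
    positivity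
  nlinarith

/-- the bound above the square of the number of edges -/
lemma lam_high (M l : ℕ) (hM : 3 ≤ M) (hl : 19 * M + 11 ≤ l) :
    1 / 2 * Real.log l + 3 / 8 * Real.log (19 * M + 11) - Real.log 40 ≤ lam (G M) l := by
  have h1 := lam_ge' M l hM hl (q := 1 / 2) (by norm_num) (by norm_num)
  refine le_trans (le_of_eq ?_) h1
  ring

/-! ### The theorem -/

/-- The conjectured value of `lambda(H, l)` is wrong for suitable `H` and all `l` beyond
`(e(H) - 1) ^ (1 + o(1))`, by any additive constant; for some of these `l` the condition of Q2 holds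
and the true value is almost `7/5` times the conjectured one. -/
theorem result (C ε : ℝ) (hC : 0 ≤ C) (hε : 0 < ε) (N : ℕ) :
    ∃ (V : Type) (_ : Fintype V) (H : SimpleGraph V), Admissible H ∧ N ≤ H.edgeSet.ncard ∧
      (∀ l : ℕ, H.edgeSet.ncard ≤ l →
        ((H.edgeSet.ncard : ℝ) - 1) *
          Real.exp ((4 + 2 * √C) * √(Real.log ((H.edgeSet.ncard : ℝ) - 1))) ≤ l →
        formula H l + C < lam H l) ∧
      (∀ l : ℕ, H.edgeSet.ncard ≤ l → 11 * (l : ℝ) ≤ ((H.edgeSet.ncard : ℝ) - 1) ^ 2 →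
        Q2Cond H l ∧ formula H l = Real.log ((H.edgeSet.ncard : ℝ) - 1)) ∧
      (∃ l : ℕ, H.edgeSet.ncard ≤ l ∧ 11 * (l : ℝ) ≤ ((H.edgeSet.ncard : ℝ) - 1) ^ 2 ∧
        (7 / 5 - ε) * formula H l < lam H l) := by
  obtain ⟨M, hM⟩ := exists_nat_gt (Real.exp (9 / ε) + Real.exp (3 * C + 30) + N + 3)
  have p1 := Real.exp_pos (9 / ε)
  have p2 := Real.exp_pos (3 * C + 30)
  have hN0 : (0 : ℝ) ≤ N := by positivity
  have hM3 : 3 ≤ M := by
    have : (3 : ℝ) < M := by linarith
    exact_mod_cast this.le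
  have hMN : N ≤ M := by
    have : (N : ℝ) < M := by linarith
    exact_mod_cast this.le
  have hM0 : (0 : ℝ) ≤ M := by positivity
  have hE : (((19 * M + 12 : ℕ) : ℝ) - 1) = 19 * M + 11 := by push_cast; ring
  have hpos : (0 : ℝ) < 19 * (M : ℝ) + 11 := by positivity
  have hL1 : 9 / ε < Real.log (19 * M + 11) := by
    rw [Real.lt_log_iff_exp_lt hpos]
    linarith
  have hL2 : 3 * C + 30 < Real.log (19 * M + 11) := by
    rw [Real.lt_log_iff_exp_lt hpos]
    linarith
  have h40 := log40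
  have h11 := log11
  refine ⟨W M, inferInstance, G M, ⟨?_, ?_, ?_⟩, ?_, ?_, ?_, ?_⟩
  · rintro (p | p | p)
    · by_cases h : p.2 = 0
      · refine ⟨Sum.inl (p.1, 1), ?_⟩
        rw [adj_11]
        refine ⟨rfl, ?_⟩
        rw [h]
        exact (by decide : bow 0 1 = true)
      · refine ⟨Sum.inl (p.1, 0), ?_⟩
        rw [adj_11]
        refine ⟨rfl, ?_⟩
        have : ∀ a : Fin 5, a ≠ 0 → bow a 0 = true := by decide
        exact this _ h
    · refine ⟨Sum.inl (p.1.1, 0), ?_⟩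
      rw [adj_21]
      exact ⟨rfl, Or.inl rfl⟩
    · refine ⟨Sum.inl (p.1, 0), ?_⟩
      rw [adj_31]
      exact ⟨rfl, rfl⟩
  · rw [hcard]; omega
  · refine ⟨Sum.inl (0, 0), Sum.inl (0, 1), Sum.inl (0, 2), by simp, ?_, ?_⟩
    · rw [adj_11]; exact ⟨rfl, by decide⟩
    · rw [adj_11]; exact ⟨rfl, by decide⟩
  · rw [hcard]; omega
  · intro l hl hl2
    rw [hcard] at hl hl2
    rw [hE] at hl2
    set L := Real.log (19 * (M : ℝ) + 11) with hL
    have hl1 : 1 ≤ l := by omega
    have hlpos : (0 : ℝ) < l := by exact_mod_cast hl1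
    have hL0 : 0 < L := by linarith
    have hlog : L + (4 + 2 * √C) * √L ≤ Real.log l := by
      have h3 := Real.log_le_log (by positivity) hl2
      rwa [Real.log_mul (by positivity) (by positivity), Real.log_exp] at h3
    refine lt_of_le_of_lt (add_le_add_left (formula_le M l) C) ?_
    rw [← hL]
    by_cases hcase : Real.log l ≤ 2 * L
    · refine lt_of_lt_of_le ?_ (lam_low M l hM3 (by omega) hcase)
      rw [← hL]
      have h4 : max L ((Real.log l + Real.log 11) / 2) ≤ L + 3 / 2 :=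
        max_le (by linarith) (by linarith)
      have h5 : ((4 + 2 * √C) * √L) ^ 2 ≤ (Real.log l - L) ^ 2 := by
        apply pow_le_pow_left₀ (by positivity)
        linarith
      have h6 : ((4 + 2 * √C) * √L) ^ 2 = (4 + 2 * √C) ^ 2 * L := by
        rw [mul_pow, Real.sq_sqrt hL0.le]
      have h7 : 2 / 5 * (4 + 2 * √C) ^ 2 ≤ 2 / 5 * (Real.log l - L) ^ 2 / L := by
        rw [le_div_iff₀ hL0]
        linarith
      have h8 : (4 + 2 * √C) ^ 2 = 16 + 16 * √C + 4 * C := by
        have := Real.sq_sqrt hC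
        nlinarith
      have h9 : 0 ≤ √C := Real.sqrt_nonneg C
      nlinarith
    · refine lt_of_lt_of_le ?_ (lam_high M l hM3 (by omega))
      rw [← hL]
      have h4 : max L ((Real.log l + Real.log 11) / 2) ≤ Real.log l / 2 + 3 / 2 :=
        max_le (by linarith) (by linarith)
      linarith
  · intro l hl hl2
    rw [hcard] at hl hl2 ⊢
    rw [hE] at hl2 ⊢
    exact ⟨q2Cond M l (by omega) hl2, formula_eq M l (by omega) (by omega) hl2⟩
  · set L := Real.log (19 * (M : ℝ) + 11) with hL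
    have hL0 : 0 < L := by linarith
    obtain ⟨l, hl⟩ : ∃ l : ℕ, l = (19 * M + 11) ^ 2 / 11 := ⟨_, rfl⟩
    have hup : 11 * l ≤ (19 * M + 11) ^ 2 := by
      rw [hl]; exact Nat.mul_div_le _ _
    have hlow : (19 * M + 11) ^ 2 < 11 * (l + 1) := by
      rw [hl]
      have := Nat.lt_mul_div_succ ((19 * M + 11) ^ 2) (show 0 < 11 by norm_num)
      simpa using this
    have hup' : 11 * (l : ℝ) ≤ (19 * M + 11) ^ 2 := by exact_mod_cast hup
    have hlow' : (19 * (M : ℝ) + 11) ^ 2 < 11 * (l + 1) := by exact_mod_cast hlow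
    have hge : 19 * M + 12 ≤ l := by nlinarith
    have hl1 : (1 : ℝ) ≤ l := by
      have : 1 ≤ l := by omega
      exact_mod_cast this
    refine ⟨l, by rw [hcard]; exact hge, by rw [hcard, hE]; exact hup', ?_⟩
    rw [formula_eq M l (by omega) (by omega) hup', ← hL]
    have h2L : Real.log l ≤ 2 * L := by
      have h3 : (l : ℝ) ≤ (19 * M + 11) ^ 2 := by linarith
      have h4 := Real.log_le_log (by positivity) h3
      rw [Real.log_pow] at h4
      push_cast at h4
      exact h4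
    have hlow2 : 2 * L - 6 ≤ Real.log l := by
      have h3 : (19 * (M : ℝ) + 11) ^ 2 ≤ 11 * (11 * l) := by nlinarith
      have h4 := Real.log_le_log (by positivity) h3
      rw [Real.log_pow, Real.log_mul (by norm_num) (by positivity),
        Real.log_mul (by norm_num) (by positivity)] at h4
      push_cast at h4
      linarith
    refine lt_of_lt_of_le ?_ (lam_low M l hM3 (by omega) h2L)
    rw [← hL]
    have h5 : (L - 6) ^ 2 ≤ (Real.log l - L) ^ 2 := by
      apply pow_le_pow_left₀ (by linarith)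
      linarith
    have h6 : 2 / 5 * (L - 12) ≤ 2 / 5 * (Real.log l - L) ^ 2 / L := by
      rw [le_div_iff₀ hL0]
      nlinarith
    have h7 : 9 < ε * L := by
      rw [div_lt_iff₀ hε] at hL1
      linarith
    nlinarith

end Pool.Agent.Results.MP_5f020a_co.SevenFifths
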